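import Pool.Agent.Helper41.KL.Fin
import Pool.Agent.Helper13.S8.b.Tab

set_option autoImplicit false
set_option maxRecDepth 100000

/-!
Kernel check of the classes (part 2).
-/

namespace S8.b

open KL KC

theorem e16 : ckC FI QT IM 0xe800cf00aa0097006c001e001e001e001e0053002f001f0000 F1 DM KM ND
    36 1000 434368512 384831488 140737488355328 160 10 = true := by decide +kernel

theorem e17 : ckC FI QT IM 0xe800cf00aa0097006c001e001e001e001e0053002f001f0000 F1 DM KM ND
    36 1000 434368512 384831488 140737488355328 170 10 = true := by decide +kernel

theorem e18 : ckC FI QT IM 0xe800cf00aa0097006c001e001e001e001e0053002f001f0000 F1 DM KM ND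
    36 1000 434368512 384831488 140737488355328 180 10 = true := by decide +kernel

theorem e19 : ckC FI QT IM 0xe800cf00aa0097006c001e001e001e001e0053002f001f0000 F1 DM KM ND
    36 1000 434368512 384831488 140737488355328 190 10 = true := by decide +kernel

theorem e20 : ckC FI QT IM 0xe800cf00aa0097006c001e001e001e001e0053002f001f0000 F1 DM KM ND
    36 1000 434368512 384831488 140737488355328 200 10 = true := by decide +kernel

theorem e21 : ckC FI QT IM 0xe800cf00aa0097006c001e001e001e001e0053002f001f0000 F1 DM KM ND
    36 1000 434368512 384831488 140737488355328 210 10 = true := by decide +kernel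

theorem e22 : ckC FI QT IM 0xe800cf00aa0097006c001e001e001e001e0053002f001f0000 F1 DM KM ND
    36 1000 434368512 384831488 140737488355328 220 10 = true := by decide +kernel

theorem e23 : ckC FI QT IM 0xe800cf00aa0097006c001e001e001e001e0053002f001f0000 F1 DM KM ND
    36 1000 434368512 384831488 140737488355328 230 10 = true := by decide +kernel

end S8.b
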